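import Pool.Agent.Helper71.HV.Sub
import Pool.Agent.Helper64.HS.FFX

/-! Part PE of row V2R: pairs of electrons. -/

set_option autoImplicit false

namespace Pool.Agent.Helper98.HV

open MeasureTheory Filter Pool.Agent.Helper95.PW Pool.Agent.Helper95.LN Pool.Agent.Helper95.CF
open Pool.Agent.Helper95.HV
open Pool.Agent.Helper64.HS (nr_nonneg norm_le_nr pd_cd)

theorem pe_mv {g : R3 → ℝ} (hg : ContDiff ℝ (⊤ : ℕ∞) g) {B : ℝ} (hB : ∀ i z, |pd i g z| ≤ B)
    (y y' : R3) : |g y - g y'| ≤ 3 * B * nr (y - y') := by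
  have hB0 : 0 ≤ B := (abs_nonneg _).trans (hB 0 0)
  have h1 : ∀ z, ‖fderiv ℝ g z‖ ≤ 3 * B := by
    intro z
    refine ContinuousLinearMap.opNorm_le_bound _ (by positivity) fun v => ?_
    have e : v = ∑ i, v i • (Pi.single i 1 : R3) := by
      conv_lhs => rw [← Finset.univ_sum_single v]
      refine Finset.sum_congr rfl fun i _ => ?_
      rw [← Pi.single_smul, smul_eq_mul, mul_one]
    conv_lhs => rw [e]
    rw [map_sum]
    calc ‖∑ i, (fderiv ℝ g z) (v i • (Pi.single i 1 : R3))‖ ≤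
          ∑ i, ‖(fderiv ℝ g z) (v i • (Pi.single i 1 : R3))‖ := norm_sum_le _ _
      _ ≤ ∑ _i : Fin 3, B * ‖v‖ := by
          refine Finset.sum_le_sum fun i _ => ?_
          rw [map_smul, norm_smul, mul_comm]
          exact mul_le_mul (hB i z) (norm_le_pi_norm v i) (norm_nonneg _) hB0
      _ = 3 * B * ‖v‖ := by
          rw [Finset.sum_const, Finset.card_univ, Fintype.card_fin, nsmul_eq_mul]
          push_cast
          ring
  have h2 := Convex.norm_image_sub_le_of_norm_fderiv_le (𝕜 := ℝ) (f := g) (s := Set.univ)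
    (C := 3 * B) (x := y') (y := y) (fun z _ => (hg.differentiable (by simp)) z)
    (fun z _ => h1 z) convex_univ (Set.mem_univ _) (Set.mem_univ _)
  rw [Real.norm_eq_abs] at h2
  exact h2.trans (mul_le_mul_of_nonneg_left (norm_le_nr _) (by positivity))

theorem pe_coord (ξ : R3) (m : Fin 3) : |ξ m| ≤ nr ξ := by
  have := norm_le_pi_norm ξ m
  rw [Real.norm_eq_abs] at this
  exact this.trans (norm_le_nr ξ)

theorem pe_sum {v w : R3} {V W : ℝ} (hv : ∀ m, |v m| ≤ V) (hw : ∀ m, |w m| ≤ W) :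
    |∑ m, v m * w m| ≤ 3 * (V * W) := by
  have hV : 0 ≤ V := (abs_nonneg _).trans (hv 0)
  calc |∑ m, v m * w m| ≤ ∑ m, |v m * w m| := Finset.abs_sum_le_sum_abs _ _
    _ ≤ ∑ _m : Fin 3, V * W := by
        refine Finset.sum_le_sum fun m _ => ?_
        rw [abs_mul]
        exact mul_le_mul (hv m) (hw m) (abs_nonneg _) hV
    _ = 3 * (V * W) := by
        rw [Finset.sum_const, Finset.card_univ, Fintype.card_fin, nsmul_eq_mul]
        push_cast
        ring

theorem pe_Tq {ξ v w : R3} {V W : ℝ} (hξ : 0 < nr ξ) (hv : ∀ m, |v m| ≤ V)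
    (hw : ∀ m, |w m| ≤ W) : |Tq ξ v w| ≤ 30 * (V * W) / nr ξ ^ 3 := by
  have hV : 0 ≤ V := (abs_nonneg _).trans (hv 0)
  have hW : 0 ≤ W := (abs_nonneg _).trans (hw 0)
  have e1 := pe_sum hv (pe_coord ξ)
  have e2 := pe_sum hw (pe_coord ξ)
  have e3 := pe_sum hv hw
  unfold Tq
  have a1 : |3 * (∑ m, v m * ξ m) * (∑ m, w m * ξ m) / nr ξ ^ 5| ≤
      27 * (V * W) / nr ξ ^ 3 := by
    rw [abs_div, abs_of_pos (pow_pos hξ 5), abs_mul, abs_mul, abs_of_pos (by norm_num : (0:ℝ) < 3)]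
    calc 3 * |∑ m, v m * ξ m| * |∑ m, w m * ξ m| / nr ξ ^ 5 ≤
          3 * (3 * (V * nr ξ)) * (3 * (W * nr ξ)) / nr ξ ^ 5 := by gcongr
      _ = 27 * (V * W) / nr ξ ^ 3 := by
          field_simp
          ring
  have a2 : |(∑ m, v m * w m) / nr ξ ^ 3| ≤ 3 * (V * W) / nr ξ ^ 3 := by
    rw [abs_div, abs_of_pos (pow_pos hξ 3)]
    gcongr
  calc |3 * (∑ m, v m * ξ m) * (∑ m, w m * ξ m) / nr ξ ^ 5 - (∑ m, v m * w m) / nr ξ ^ 3| ≤
        27 * (V * W) / nr ξ ^ 3 + 3 * (V * W) / nr ξ ^ 3 :=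
        (abs_sub _ _).trans (add_le_add a1 a2)
    _ = _ := by ring

theorem PE : Pool.Agent.Helper71.HV.ST_PE := by
  refine ⟨1000, by norm_num, ?_⟩
  intro K L r G A y y' hK hL hr hr1 hG hA hn
  have hK0 : 0 < K := by linarith
  have hL0 : 0 < L := by linarith
  have hξ : 0 < nr (y - y') := lt_of_le_of_ne (nr_nonneg _) (Ne.symm hn)
  set ρ : ℝ := nr (y - y') with hρ
  have dG : ∀ m, |(gv G y - gv G y') m| ≤ 3 * (K / L) * ρ := fun m =>
    pe_mv (pd_cd hG.sm m) (fun i z => hG.d2 i m z) y y'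
  have dA : ∀ m, |(gv A y - gv A y') m| ≤ 3 * (K / r) * ρ := fun m =>
    pe_mv (pd_cd hA.sm m) (fun i z => hA.d2 i m z) y y'
  have dq : ∀ i, |gq G y i - gq G y' i| ≤ 18 * K ^ 2 / L ^ 2 * ρ := by
    intro i
    unfold gq
    rw [← Finset.sum_sub_distrib]
    calc |∑ l, (pd l (pd i G) y * pd l G y - pd l (pd i G) y' * pd l G y')| ≤
          ∑ l, |pd l (pd i G) y * pd l G y - pd l (pd i G) y' * pd l G y'| :=
          Finset.abs_sum_le_sum_abs _ _
      _ ≤ ∑ _l : Fin 3, 6 * K ^ 2 / L ^ 2 * ρ := by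
          refine Finset.sum_le_sum fun l _ => ?_
          have b1 : |pd l G y - pd l G y'| ≤ 3 * (K / L) * ρ :=
            pe_mv (pd_cd hG.sm l) (fun i z => hG.d2 i l z) y y'
          have b2 : |pd l (pd i G) y - pd l (pd i G) y'| ≤ 3 * (K / L ^ 2) * ρ :=
            pe_mv (pd_cd (pd_cd hG.sm i) l) (fun j z => hG.d3 j l i z) y y'
          have b3 := hG.d2 l i y
          have b4 := hG.d1 l y'
          have e : pd l (pd i G) y * pd l G y - pd l (pd i G) y' * pd l G y' =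
              pd l (pd i G) y * (pd l G y - pd l G y') +
                (pd l (pd i G) y - pd l (pd i G) y') * pd l G y' := by ring
          rw [e]
          refine (abs_add_le _ _).trans ?_
          rw [abs_mul, abs_mul]
          calc |pd l (pd i G) y| * |pd l G y - pd l G y'| +
                |pd l (pd i G) y - pd l (pd i G) y'| * |pd l G y'| ≤
                (K / L) * (3 * (K / L) * ρ) + (3 * (K / L ^ 2) * ρ) * K := by gcongr
            _ = 6 * K ^ 2 / L ^ 2 * ρ := by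
                field_simp
                ring
      _ = 18 * K ^ 2 / L ^ 2 * ρ := by
          rw [Finset.sum_const, Finset.card_univ, Fintype.card_fin, nsmul_eq_mul]
          push_cast
          ring
  have t1 := pe_Tq hξ dG dG
  have t2 := pe_Tq hξ dG dA
  have t3 : |(∑ i, (gq G y i - gq G y' i) * (y i - y' i)) / ρ ^ 3| ≤
      54 * K ^ 2 / L ^ 2 / ρ := by
    have e1 : |∑ i, (gq G y i - gq G y' i) * (y i - y' i)| ≤
        3 * (18 * K ^ 2 / L ^ 2 * ρ * ρ) :=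
      pe_sum (v := fun i => gq G y i - gq G y' i) (w := y - y') dq (pe_coord (y - y'))
    rw [abs_div, abs_of_pos (pow_pos hξ 3), div_le_iff₀ (pow_pos hξ 3)]
    refine e1.trans (le_of_eq ?_)
    field_simp
    ring
  have q1 : 30 * (3 * (K / L) * ρ * (3 * (K / L) * ρ)) / ρ ^ 3 = 270 * (K ^ 2 / L ^ 2 / ρ) := by
    field_simp
    ring
  have q2 : 30 * (3 * (K / L) * ρ * (3 * (K / r) * ρ)) / ρ ^ 3 =
      270 * (K ^ 2 / (r * L) / ρ) := by
    field_simp
    ring
  have q3 : K ^ 2 / L ^ 2 / ρ ≤ K ^ 2 / (r * L) / ρ := by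
    have : r * L ≤ L ^ 2 := by nlinarith
    gcongr
  have q4 : 54 * K ^ 2 / L ^ 2 / ρ = 54 * (K ^ 2 / L ^ 2 / ρ) := by ring
  have q5 : 1000 * K ^ 2 / (r * L) * (1 / ρ) = 1000 * (K ^ 2 / (r * L) / ρ) := by ring
  have q6 : 0 ≤ K ^ 2 / (r * L) / ρ := by positivity
  rw [q1] at t1
  rw [q2] at t2
  rw [q4] at t3
  rw [q5]
  linarith

end Pool.Agent.Helper98.HV
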